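import Mathlib

set_option autoImplicit false

/-!
# Laws of the random entries
-/

namespace Pool.Agent.X215.Smooth

open MeasureTheory ProbabilityTheory

/-- A law on the real line with density at most `2 ^ s`, which gives the set `|x| > 2 ^ (s + t)`
probability at most `2 ^ (-t)`, for all `t`. -/
def Law (s : ℕ) (μ : Measure ℝ) : Prop :=
  (∀ B, MeasurableSet B → μ B ≤ 2 ^ s * volume B) ∧
    ∀ t : ℕ, μ {x | (2 : ℝ) ^ (s + t) < |x|} ≤ (2 ^ t)⁻¹

theorem law_gauss (s : ℕ) (c : ℝ) (v : NNReal) (hc : |c| ≤ 2 ^ s) (h1 : ((4 : NNReal) ^ s)⁻¹ ≤ v)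
    (h2 : v ≤ 4 ^ s) : Law (s + 1) (gaussianReal c v) := by
  have hv0 : (0 : ℝ) < v := by
    have : (0 : NNReal) < v := lt_of_lt_of_le (by positivity) h1
    exact_mod_cast this
  have hvne : v ≠ 0 := by
    rintro rfl
    simp at hv0
  have h1' : (((4 : ℝ) ^ s)⁻¹) ≤ v := by exact_mod_cast h1
  have h2' : (v : ℝ) ≤ 4 ^ s := by exact_mod_cast h2
  constructor
  · intro B hB
    rw [gaussianReal_apply c hvne]
    have h3 : ∀ x, gaussianPDF c v x ≤ 2 ^ (s + 1) := by
      intro x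
      rw [gaussianPDF, gaussianPDFReal]
      have h4 : (√(2 * Real.pi * v))⁻¹ * Real.exp (-(x - c) ^ 2 / (2 * v)) ≤ 2 ^ s := by
        have h5 : Real.exp (-(x - c) ^ 2 / (2 * v)) ≤ 1 := by
          apply Real.exp_le_one_iff.2
          apply div_nonpos_of_nonpos_of_nonneg
          · nlinarith [sq_nonneg (x - c)]
          · positivity
        have h6 : (√(2 * Real.pi * v))⁻¹ ≤ 2 ^ s := by
          apply inv_le_of_inv_le₀ (by positivity)
          apply Real.le_sqrt_of_sq_le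
          have h7 : (((2 : ℝ) ^ s)⁻¹) ^ 2 = ((4 : ℝ) ^ s)⁻¹ := by
            rw [inv_pow, ← pow_mul, mul_comm, pow_mul]
            norm_num
          rw [h7]
          have := Real.pi_gt_three
          nlinarith
        calc _ ≤ (2 : ℝ) ^ s * 1 := by
              refine mul_le_mul h6 h5 (Real.exp_pos _).le (by positivity)
          _ = _ := mul_one _
      calc ENNReal.ofReal _ ≤ ENNReal.ofReal (2 ^ s) := ENNReal.ofReal_le_ofReal h4
        _ = 2 ^ s := by
          rw [ENNReal.ofReal_pow (by norm_num)]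
          norm_num
        _ ≤ 2 ^ (s + 1) := pow_le_pow_right₀ (by norm_num) (by omega)
    calc ∫⁻ x in B, gaussianPDF c v x ≤ ∫⁻ _ in B, 2 ^ (s + 1) := lintegral_mono fun x => h3 x
      _ = 2 ^ (s + 1) * volume B := by rw [setLIntegral_const]
  · intro t
    have hs : {x : ℝ | (2 : ℝ) ^ (s + 1 + t) < |x|} ⊆
        {x | (2 : ℝ) ^ (s + t) ≤ |x - ∫ y, y ∂(gaussianReal c v)|} := by
      intro x hx
      simp only [Set.mem_ofPred_eq, integral_id_gaussianReal] at hx ⊢
      have h3 : |x| ≤ |x - c| + |c| := by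
        have := abs_add_le (x - c) c
        rwa [sub_add_cancel] at this
      have h4 : (2 : ℝ) ^ (s + 1 + t) = 2 * 2 ^ (s + t) := by ring
      have h5 : (2 : ℝ) ^ s ≤ 2 ^ (s + t) := pow_le_pow_right₀ (by norm_num) (by omega)
      linarith
    have hcheb := meas_ge_le_variance_div_sq (μ := gaussianReal c v) (X := fun y => y)
      (memLp_id_gaussianReal 2) (c := (2 : ℝ) ^ (s + t)) (by positivity)
    rw [variance_fun_id_gaussianReal] at hcheb
    refine (measure_mono hs).trans (hcheb.trans ?_)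
    have h6 : (v : ℝ) / ((2 : ℝ) ^ (s + t)) ^ 2 ≤ ((2 : ℝ) ^ t)⁻¹ := by
      rw [div_le_iff₀ (by positivity)]
      have h7 : ((2 : ℝ) ^ t)⁻¹ * ((2 : ℝ) ^ (s + t)) ^ 2 = 4 ^ s * 2 ^ t := by
        rw [pow_add, mul_pow, ← pow_mul 2 s, mul_comm s 2, pow_mul]
        field_simp
        norm_num
      rw [h7]
      calc (v : ℝ) ≤ 4 ^ s := h2'
        _ ≤ 4 ^ s * 2 ^ t := le_mul_of_one_le_right (by positivity) (one_le_pow₀ (by norm_num))
    calc ENNReal.ofReal _ ≤ ENNReal.ofReal (((2 : ℝ) ^ t)⁻¹) := ENNReal.ofReal_le_ofReal h6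
      _ = (2 ^ t)⁻¹ := by
        rw [ENNReal.ofReal_inv_of_pos (by positivity), ENNReal.ofReal_pow (by norm_num)]
        norm_num

end Pool.Agent.X215.Smooth
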