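import Pool.Agent.H622R3.SM.Model

set_option autoImplicit false

/-!
# More fuel
-/

namespace Pool.Agent.X215.Smooth

open Pool.Agent.H622R3.SM

theorem run_mono {O : Set (List Bool)} {α : List Outcome → List Instr × Test} :
    ∀ {k k' : ℕ} {h : List Outcome} {ρ : Reg → ℝ} {r : Bool × List ℝ × ℕ}, k ≤ k' →
      run O α k h ρ = some r → run O α k' h ρ = some r := by
  intro k
  induction k with
  | zero =>
    intro k' h ρ r _ hr
    rw [run] at hr
    exact absurd hr (by simp)
  | succ k ih =>
    intro k' h ρ r hk hr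
    obtain ⟨k'', rfl⟩ : ∃ k'', k' = k'' + 1 := ⟨k' - 1, by omega⟩
    rw [run] at hr ⊢
    rcases he : exec (α h).1 ρ with _ | x
    · rw [he] at hr
      exact absurd hr (by simp)
    · rw [he] at hr
      simp only [Option.bind_some] at hr ⊢
      rcases ht : (α h).2 with y | w | a
      · rw [ht] at hr
        simp only [Option.map_eq_some_iff] at hr ⊢
        obtain ⟨z, hz, hz'⟩ := hr
        exact ⟨z, ih (by omega) hz, hz'⟩
      · rw [ht] at hr
        simp only [Option.map_eq_some_iff] at hr ⊢
        obtain ⟨z, hz, hz'⟩ := hr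
        exact ⟨z, ih (by omega) hz, hz'⟩
      · rw [ht] at hr
        exact hr

end Pool.Agent.X215.Smooth
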