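import Mathlib

set_option autoImplicit false

/-!
# Anti-concentration of the minors of a random matrix with arbitrary fixed integer entries
-/

namespace Pool.Agent.X215.Smooth

open MeasureTheory Matrix

/-! ### Product measures -/

/-- A bound for all slices in one coordinate is a bound for the set. -/
theorem slice {ι : Type} [Fintype ι] [DecidableEq ι] (μ : ι → Measure ℝ)
    [∀ i, IsProbabilityMeasure (μ i)] (e : ι) {S : Set (ι → ℝ)} (hS : MeasurableSet S)
    {c : ENNReal} (h : ∀ ω, μ e {x | Function.update ω e x ∈ S} ≤ c) :
    Measure.pi μ S ≤ c := by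
  have hmeas : Measurable (S.indicator (1 : (ι → ℝ) → ENNReal)) :=
    measurable_one.indicator hS
  calc Measure.pi μ S = ∫⁻ ω, S.indicator 1 ω ∂(Measure.pi μ) := (lintegral_indicator_one hS).symm
    _ = (∫⋯∫⁻_Finset.univ, S.indicator 1 ∂μ) 0 := lintegral_eq_lmarginal_univ 0
    _ = (∫⋯∫⁻_(Finset.univ.erase e),
          (fun x => ∫⁻ t, S.indicator 1 (Function.update x e t) ∂μ e) ∂μ) 0 := by
        rw [lmarginal_erase' _ hmeas (Finset.mem_univ e)]
    _ ≤ (∫⋯∫⁻_(Finset.univ.erase e), (fun _ => c) ∂μ) 0 := by
        refine lmarginal_mono ?_ 0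
        intro x
        refine le_trans (le_of_eq ?_) (h x)
        have h2 : {t | Function.update x e t ∈ S} = Function.update x e ⁻¹' S := rfl
        rw [h2, ← lintegral_indicator_one (hS.preimage (measurable_update x))]
        rfl
    _ = c := by
        rw [lmarginal, lintegral_const, measure_univ, mul_one]

/-- Small values of a linear function. -/
theorem small_interval {μ : Measure ℝ} {K : ENNReal}
    (hμ : ∀ B, MeasurableSet B → μ B ≤ K * volume B) {a c δ η : ℝ} (hη : 0 < η) (ha : η ≤ |a|)
    (hδ : 0 ≤ δ) : μ {x | |x * a + c| < δ} ≤ K * ENNReal.ofReal (2 * δ / η) := by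
  have ha0 : 0 < |a| := hη.trans_le ha
  have ha1 : a ≠ 0 := abs_pos.1 ha0
  have hsub : {x : ℝ | |x * a + c| < δ} ⊆ Set.Ioo (-c / a - δ / |a|) (-c / a + δ / |a|) := by
    intro x hx
    have h1 : |x - (-c / a)| < δ / |a| := by
      rw [lt_div_iff₀ ha0, ← abs_mul]
      have : (x - -c / a) * a = x * a + c := by field_simp; ring
      rw [this]
      exact hx
    rw [abs_lt] at h1
    constructor <;> linarith [h1.1, h1.2]
  calc μ {x | |x * a + c| < δ} ≤ μ (Set.Ioo (-c / a - δ / |a|) (-c / a + δ / |a|)) :=
        measure_mono hsub
    _ ≤ K * volume (Set.Ioo (-c / a - δ / |a|) (-c / a + δ / |a|)) := hμ _ measurableSet_Ioo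
    _ = K * ENNReal.ofReal (2 * (δ / |a|)) := by
        rw [Real.volume_Ioo]
        congr 2
        ring
    _ ≤ K * ENNReal.ofReal (2 * δ / η) := by
        gcongr
        rw [mul_div_assoc]
        gcongr

/-! ### The random matrix -/

open Classical in
/-- The matrix with the entries `ω (i, j)` at the positions in `E` and the integers `M i j` at the
other positions. -/
noncomputable def mat {m n : ℕ} (E : Set (Fin m × Fin n)) (M : Matrix (Fin m) (Fin n) ℤ)
    (ω : Fin m × Fin n → ℝ) : Matrix (Fin m) (Fin n) ℝ :=
  fun i j => if (i, j) ∈ E then ω (i, j) else (M i j : ℝ)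

/-- A minor. -/
noncomputable def mino {m n : ℕ} (E : Set (Fin m × Fin n)) (M : Matrix (Fin m) (Fin n) ℤ)
    {k : ℕ} (f : Fin k → Fin m) (g : Fin k → Fin n) (ω : Fin m × Fin n → ℝ) : ℝ :=
  ((mat E M ω).submatrix f g).det

variable {m n : ℕ} {E : Set (Fin m × Fin n)} {M : Matrix (Fin m) (Fin n) ℤ}

theorem continuous_mat : Continuous (mat E M) := by
  classical
  refine continuous_pi fun i => continuous_pi fun j => ?_
  unfold mat
  by_cases h : (i, j) ∈ E
  · simp only [h, if_true]
    exact continuous_apply _
  · simp only [h, if_false]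
    exact continuous_const

theorem continuous_mino {k : ℕ} (f : Fin k → Fin m) (g : Fin k → Fin n) :
    Continuous (mino E M f g) := by
  unfold mino
  exact (continuous_mat.matrix_submatrix f g).matrix_det

/-- The dependence on one entry. -/
theorem mino_update {k : ℕ} {f : Fin (k + 1) → Fin m} {g : Fin (k + 1) → Fin n}
    (hf : Function.Injective f) (hg : Function.Injective g) {a b : Fin (k + 1)}
    (h : (f a, g b) ∈ E) (ω : Fin m × Fin n → ℝ) (x : ℝ) :
    mino E M f g (Function.update ω (f a, g b) x) =
      x * ((-1) ^ (a + b : ℕ) * mino E M (f ∘ a.succAbove) (g ∘ b.succAbove) ω) +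
        mino E M f g (Function.update ω (f a, g b) 0) := by
  classical
  set N := (mat E M ω).submatrix f g with hN
  have key : ∀ y : ℝ, (mat E M (Function.update ω (f a, g b) y)).submatrix f g =
      N.updateRow a (y • Pi.single b 1 + Function.update (N a) b 0) := by
    intro y
    ext p q
    rcases eq_or_ne p a with rfl | hp
    · rw [Matrix.updateRow_self, Matrix.submatrix_apply, Pi.add_apply, Pi.smul_apply]
      rcases eq_or_ne q b with rfl | hq
      · rw [Function.update_self, Pi.single_eq_same, mat, if_pos h, Function.update_self]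
        simp
      · rw [Function.update_of_ne hq, Pi.single_eq_of_ne hq, smul_zero, zero_add, hN,
          Matrix.submatrix_apply, mat, mat]
        split_ifs
        · rw [Function.update_of_ne]
          intro h'
          exact hq (hg (Prod.ext_iff.1 h').2)
        · rfl
    · rw [Matrix.updateRow_ne hp, hN, Matrix.submatrix_apply, Matrix.submatrix_apply, mat, mat]
      split_ifs
      · rw [Function.update_of_ne]
        intro h'
        exact hp (hf (Prod.ext_iff.1 h').1)
      · rfl
  have e1 : mino E M f g (Function.update ω (f a, g b) x) =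
      x * (N.updateRow a (Pi.single b 1)).det + (N.updateRow a (Function.update (N a) b 0)).det := by
    rw [mino, key x, Matrix.det_updateRow_add, Matrix.det_updateRow_smul]
  have e2 : mino E M f g (Function.update ω (f a, g b) 0) =
      (N.updateRow a (Function.update (N a) b 0)).det := by
    rw [mino, key 0, zero_smul, zero_add]
  rw [e1, e2]
  congr 2
  rw [← Matrix.adjugate_apply, Matrix.adjugate_fin_succ_eq_det_submatrix]
  rfl

theorem mino_update_of {k : ℕ} {f : Fin k → Fin m} {g : Fin k → Fin n} {e : Fin m × Fin n}
    (h : e ∈ E → ∀ a b, (f a, g b) ≠ e) (ω : Fin m × Fin n → ℝ) (x : ℝ) :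
    mino E M f g (Function.update ω e x) = mino E M f g ω := by
  classical
  unfold mino
  congr 1
  ext p q
  rw [Matrix.submatrix_apply, Matrix.submatrix_apply, mat, mat]
  split_ifs with h1
  · rw [Function.update_of_ne]
    intro h2
    exact h (h2 ▸ h1) p q h2
  · rfl

theorem const_of_update {ι : Type} [Fintype ι] [DecidableEq ι] {F : (ι → ℝ) → ℝ}
    (h : ∀ ω e x, F (Function.update ω e x) = F ω) (ω : ι → ℝ) : F ω = F 0 := by
  have h1 : ∀ s : Finset ι, F (s.piecewise ω 0) = F 0 := by
    intro s
    induction s using Finset.induction_on with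
    | empty => rw [Finset.piecewise_empty]
    | insert j s _ ih => rw [Finset.piecewise_insert, h, ih]
  have := h1 Finset.univ
  rwa [Finset.piecewise_univ] at this

theorem mino_zero_int {k : ℕ} (f : Fin k → Fin m) (g : Fin k → Fin n) :
    ∃ z : ℤ, mino E M f g 0 = z := by
  classical
  refine ⟨(Matrix.of fun p q => if (f p, g q) ∈ E then 0 else M (f p) (g q)).det, ?_⟩
  rw [mino, Int.cast_det]
  congr 1
  ext p q
  rw [Matrix.submatrix_apply, mat, Matrix.map_apply, Matrix.of_apply]
  split_ifs
  · simp
  · rfl

/-- **Anti-concentration.** A minor is identically zero, or it is small with small probability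
only. -/
theorem anti {s : ℕ} (μ : Fin m × Fin n → Measure ℝ) [∀ i, IsProbabilityMeasure (μ i)]
    (hμ : ∀ e ∈ E, ∀ B, MeasurableSet B → μ e B ≤ 2 ^ s * volume B) :
    ∀ (k : ℕ) (f : Fin k → Fin m) (g : Fin k → Fin n), Function.Injective f →
      Function.Injective g → (∀ ω, mino E M f g ω = 0) ∨
      ∀ ε : ℝ, 0 < ε → ε ≤ 1 → Measure.pi μ {ω | |mino E M f g ω| < ε ^ k} ≤
        k * (2 ^ (s + 1) * ENNReal.ofReal ε) := by
  classical
  intro k
  induction k with
  | zero =>
    intro f g _ _
    right
    intro ε _ _
    have : {ω | |mino E M f g ω| < ε ^ 0} = ∅ := by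
      ext ω
      simp [mino]
    rw [this]
    simp
  | succ k ih =>
    intro f g hf hg
    by_cases H : ∃ a b, (f a, g b) ∈ E ∧
        ¬ ∀ ω, mino E M (f ∘ a.succAbove) (g ∘ b.succAbove) ω = 0
    · obtain ⟨a, b, hab, hne⟩ := H
      right
      intro ε h0 h1
      have hI := (ih (f ∘ a.succAbove) (g ∘ b.succAbove)
        (hf.comp Fin.succAbove_right_injective) (hg.comp Fin.succAbove_right_injective)).resolve_left
        hne ε h0 h1
      set D := mino E M f g with hD
      set D' := mino E M (f ∘ a.succAbove) (g ∘ b.succAbove) with hD'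
      have hcD : Continuous D := continuous_mino f g
      have hcD' : Continuous D' := continuous_mino _ _
      have hsub : {ω | |D ω| < ε ^ (k + 1)} ⊆ {ω | |D' ω| < ε ^ k} ∪
          {ω | ε ^ k ≤ |D' ω| ∧ |D ω| < ε ^ (k + 1)} := by
        intro ω hω
        rcases lt_or_ge |D' ω| (ε ^ k) with h | h
        · exact Or.inl h
        · exact Or.inr ⟨h, hω⟩
      have hmS : MeasurableSet {ω | ε ^ k ≤ |D' ω| ∧ |D ω| < ε ^ (k + 1)} := by
        apply MeasurableSet.inter
        · exact measurableSet_le measurable_const hcD'.abs.measurable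
        · exact measurableSet_lt hcD.abs.measurable measurable_const
      have h2 : Measure.pi μ {ω | ε ^ k ≤ |D' ω| ∧ |D ω| < ε ^ (k + 1)} ≤
          2 ^ (s + 1) * ENNReal.ofReal ε := by
        refine slice μ (f a, g b) hmS fun ω => ?_
        have hD'u : ∀ x, D' (Function.update ω (f a, g b) x) = D' ω := fun x =>
          mino_update_of (fun _ p q h => by
            have := hf (Prod.ext_iff.1 h).1
            exact Fin.succAbove_ne a p this) ω x
        rcases lt_or_ge |D' ω| (ε ^ k) with h | h
        · have : {x | Function.update ω (f a, g b) x ∈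
              {ω | ε ^ k ≤ |D' ω| ∧ |D ω| < ε ^ (k + 1)}} = ∅ := by
            ext x
            simp only [Set.mem_ofPred_eq, hD'u, Set.mem_empty_iff_false, iff_false, not_and]
            intro h'
            exact absurd h' (not_le.2 h)
          rw [this, measure_empty]
          exact zero_le
        · have hs : {x | Function.update ω (f a, g b) x ∈
              {ω | ε ^ k ≤ |D' ω| ∧ |D ω| < ε ^ (k + 1)}} ⊆
              {x | |x * ((-1) ^ (a + b : ℕ) * D' ω) +
                D (Function.update ω (f a, g b) 0)| < ε ^ (k + 1)} := by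
            intro x hx
            have := hx.2
            rw [hD, mino_update hf hg hab] at this
            exact this
          refine (measure_mono hs).trans ((small_interval (hμ _ hab) (η := ε ^ k)
            (by positivity) ?_ (by positivity)).trans (le_of_eq ?_))
          · rw [abs_mul, abs_pow, abs_neg, abs_one, one_pow, one_mul]
            exact h
          · have h3 : 2 * ε ^ (k + 1) / ε ^ k = 2 * ε := by
              rw [pow_succ]
              field_simp
            rw [h3, ENNReal.ofReal_mul (by norm_num), pow_succ, mul_assoc]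
            norm_num
      calc Measure.pi μ {ω | |D ω| < ε ^ (k + 1)} ≤ _ := measure_mono hsub
        _ ≤ _ := measure_union_le _ _
        _ ≤ k * (2 ^ (s + 1) * ENNReal.ofReal ε) + 2 ^ (s + 1) * ENNReal.ofReal ε :=
            add_le_add hI h2
        _ = ((k + 1 : ℕ) : ENNReal) * (2 ^ (s + 1) * ENNReal.ofReal ε) := by
            push_cast
            ring
    · push Not at H
      have hc : ∀ ω, mino E M f g ω = mino E M f g 0 := by
        apply const_of_update
        intro ω e x
        by_cases he : e ∈ E ∧ ∃ a b, (f a, g b) = e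
        · obtain ⟨he, a, b, rfl⟩ := he
          have h0 := H a b he
          have h1 : ∀ y, mino E M f g (Function.update ω (f a, g b) y) =
              mino E M f g (Function.update ω (f a, g b) 0) := by
            intro y
            rw [mino_update hf hg he, h0, mul_zero, mul_zero, zero_add]
          rw [h1 x]
          conv_rhs => rw [← Function.update_eq_self (f a, g b) ω]
          exact (h1 _).symm
        · apply mino_update_of
          intro he' a b hab
          exact he ⟨he', a, b, hab⟩
      obtain ⟨z, hz⟩ := mino_zero_int (E := E) (M := M) f g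
      rcases eq_or_ne z 0 with rfl | hz0
      · left
        intro ω
        rw [hc, hz, Int.cast_zero]
      · right
        intro ε h0 h1
        have : {ω | |mino E M f g ω| < ε ^ (k + 1)} = ∅ := by
          ext ω
          simp only [Set.mem_ofPred_eq, Set.mem_empty_iff_false, iff_false, not_lt]
          rw [hc, hz]
          calc ε ^ (k + 1) ≤ 1 := pow_le_one₀ h0.le h1
            _ ≤ |(z : ℝ)| := by
              rw [← Int.cast_abs]
              exact_mod_cast Int.one_le_abs hz0
        rw [this, measure_empty]
        exact zero_le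

end Pool.Agent.X215.Smooth
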