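import Pool.Agent.X215.Smooth.Minor
import Pool.Agent.X215.Smooth.Prob

set_option autoImplicit false

/-!
# With large probability all nonzero minors are neither small nor large
-/

namespace Pool.Agent.X215.Smooth

open MeasureTheory Matrix

/-- The exponent of the smallest minors. -/
def ex (m n s t : ℕ) : ℕ := 2 * m + (m + n) * m + s + t + 2

/-- The logarithm of the largest entries. -/
def en (m n s t : ℕ) : ℕ := s + (t + 1 + m + n)

/-- The bound for all minors. -/
def RR (m n s t : ℕ) : ℕ := m * ex m n s t + m * m + en m n s t * m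

variable {m n : ℕ}

/-- The minor `f`, `g` is not too small. -/
def goodMin (E : Set (Fin m × Fin n)) (M : Matrix (Fin m) (Fin n) ℤ) (s t : ℕ) {k : ℕ}
    (f : Fin k → Fin m) (g : Fin k → Fin n) : Set (Fin m × Fin n → ℝ) :=
  {ω | mino E M f g ω ≠ 0 → (((2 : ℝ) ^ ex m n s t)⁻¹) ^ k ≤ |mino E M f g ω|}

/-- The entry `e` is not too large. -/
def goodEnt (s t : ℕ) (e : Fin m × Fin n) : Set (Fin m × Fin n → ℝ) :=
  {ω | |ω e| ≤ (2 : ℝ) ^ en m n s t}

/-- All entries are small, no nonzero minor is small. -/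
def good (E : Set (Fin m × Fin n)) (M : Matrix (Fin m) (Fin n) ℤ) (s t : ℕ) :
    Set (Fin m × Fin n → ℝ) :=
  {ω | (∀ e ∈ E, ω ∈ goodEnt s t e) ∧ ∀ (k : Fin (m + 1)) (f : Fin k → Fin m) (g : Fin k → Fin n),
    Function.Injective f → Function.Injective g → ω ∈ goodMin E M s t f g}

variable {E : Set (Fin m × Fin n)} {M : Matrix (Fin m) (Fin n) ℤ} {s t : ℕ}

theorem measurable_goodMin {k : ℕ} (f : Fin k → Fin m) (g : Fin k → Fin n) :
    MeasurableSet (goodMin E M s t f g) := by
  have h : goodMin E M s t f g = {ω | mino E M f g ω = 0} ∪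
      {ω | (((2 : ℝ) ^ ex m n s t)⁻¹) ^ k ≤ |mino E M f g ω|} := by
    ext ω
    simp only [goodMin, Set.mem_ofPred_eq, Set.mem_union]
    tauto
  rw [h]
  have hc := continuous_mino (E := E) (M := M) f g
  exact (measurableSet_eq_fun hc.measurable measurable_const).union
    (measurableSet_le measurable_const hc.abs.measurable)

theorem measurable_goodEnt (e : Fin m × Fin n) : MeasurableSet (goodEnt s t e) :=
  measurableSet_le (continuous_apply e).abs.measurable measurable_const

theorem measurable_good : MeasurableSet (good E M s t) := by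
  have h : good E M s t = (⋂ e ∈ E, goodEnt s t e) ∩
      ⋂ (k : Fin (m + 1)) (f : Fin k → Fin m) (g : Fin k → Fin n) (_ : Function.Injective f)
        (_ : Function.Injective g), goodMin E M s t f g := by
    ext ω
    simp only [good, Set.mem_ofPred_eq, Set.mem_inter_iff, Set.mem_iInter]
  rw [h]
  refine MeasurableSet.inter ?_ ?_
  · exact MeasurableSet.biInter (Set.to_countable _) fun e _ => measurable_goodEnt e
  · exact MeasurableSet.iInter fun k => MeasurableSet.iInter fun f => MeasurableSet.iInter fun g =>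
      MeasurableSet.iInter fun _ => MeasurableSet.iInter fun _ => measurable_goodMin f g

theorem good_mid (hM : ∀ i j, |M i j| ≤ 2 ^ s) {ω : Fin m × Fin n → ℝ} (h : ω ∈ good E M s t) :
    Mid (RR m n s t) (mat E M ω) := by
  classical
  intro k f g hne
  have hf : Function.Injective f := by
    intro a b hab
    by_contra hne'
    exact hne (Matrix.det_zero_of_row_eq hne' (by
      ext q
      simp only [Matrix.submatrix_apply, hab]))
  have hg : Function.Injective g := by
    intro a b hab
    by_contra hne'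
    exact hne (Matrix.det_zero_of_column_eq hne' (by
      intro q
      simp only [Matrix.submatrix_apply, hab]))
  have hk : k ≤ m := by simpa using Fintype.card_le_of_injective f hf
  constructor
  · have h1 : (((2 : ℝ) ^ ex m n s t)⁻¹) ^ k ≤ |((mat E M ω).submatrix f g).det| :=
      h.2 ⟨k, by omega⟩ f g hf hg hne
    refine le_trans ?_ h1
    rw [inv_pow, ← pow_mul]
    refine inv_anti₀ (by positivity) (pow_le_pow_right₀ (by norm_num) ?_)
    calc ex m n s t * k ≤ ex m n s t * m := Nat.mul_le_mul le_rfl hk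
      _ = m * ex m n s t := Nat.mul_comm _ _
      _ ≤ RR m n s t := by unfold RR; omega
  · have h1 : ∀ i j, |mat E M ω i j| ≤ (2 : ℝ) ^ en m n s t := by
      intro i j
      unfold mat
      split_ifs with hE
      · exact h.1 (i, j) hE
      · rw [← Int.cast_abs]
        calc ((|M i j| : ℤ) : ℝ) ≤ ((2 ^ s : ℤ) : ℝ) := by exact_mod_cast hM i j
          _ = (2 : ℝ) ^ s := by push_cast; rfl
          _ ≤ (2 : ℝ) ^ en m n s t := pow_le_pow_right₀ (by norm_num) (by unfold en; omega)
    have h2 := Matrix.det_le (A := (mat E M ω).submatrix f g)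
      (abv := (IsAbsoluteValue.toAbsoluteValue (abs : ℝ → ℝ))) (x := (2 : ℝ) ^ en m n s t)
      (fun i j => h1 _ _)
    rw [Fintype.card_fin, nsmul_eq_mul] at h2
    change |((mat E M ω).submatrix f g).det| ≤ _ at h2
    refine h2.trans ?_
    have h3 : ((k.factorial : ℕ) : ℝ) ≤ 2 ^ (m * m) := by
      have h4 : k.factorial ≤ 2 ^ (m * m) :=
        calc k.factorial ≤ k ^ k := Nat.factorial_le_pow k
          _ ≤ (2 ^ m) ^ k := Nat.pow_le_pow_left (hk.trans Nat.lt_two_pow_self.le) k
          _ ≤ (2 ^ m) ^ m := Nat.pow_le_pow_right (by positivity) hk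
          _ = 2 ^ (m * m) := by rw [← pow_mul]
      exact_mod_cast h4
    calc ((k.factorial : ℕ) : ℝ) * ((2 : ℝ) ^ en m n s t) ^ k
        ≤ 2 ^ (m * m) * ((2 : ℝ) ^ en m n s t) ^ m := by
          refine mul_le_mul h3 (pow_le_pow_right₀ (one_le_pow₀ (by norm_num)) hk)
            (by positivity) (by positivity)
      _ = 2 ^ (m * m + en m n s t * m) := by rw [← pow_mul, ← pow_add]
      _ ≤ 2 ^ RR m n s t := pow_le_pow_right₀ (by norm_num) (by unfold RR; omega)

theorem two_cancel (a b : ℕ) : (2 : ENNReal) ^ a * (2 ^ (b + a))⁻¹ = (2 ^ b)⁻¹ := by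
  rw [pow_add, ENNReal.mul_inv (Or.inl (by positivity)) (Or.inl (by finiteness)), mul_comm,
    mul_assoc, ENNReal.inv_mul_cancel (by positivity) (by finiteness), mul_one]

/-- The probability of the complement. -/
theorem prob_good (μ : Fin m × Fin n → Measure ℝ) [∀ i, IsProbabilityMeasure (μ i)]
    (hμ : ∀ e ∈ E, ∀ B, MeasurableSet B → μ e B ≤ 2 ^ s * volume B)
    (hτ : ∀ e ∈ E, ∀ t : ℕ, μ e {x | (2 : ℝ) ^ (s + t) < |x|} ≤ (2 ^ t)⁻¹) :
    Measure.pi μ (good E M s t)ᶜ ≤ (2 ^ t)⁻¹ := by
  classical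
  have hsub : (good E M s t)ᶜ ⊆ (⋃ e : Fin m × Fin n, {ω | e ∈ E ∧ ω ∉ goodEnt s t e}) ∪
      ⋃ (k : Fin (m + 1)) (f : Fin k → Fin m) (g : Fin k → Fin n),
        {ω | Function.Injective f ∧ Function.Injective g ∧ ω ∉ goodMin E M s t f g} := by
    intro ω hω
    simp only [good, Set.mem_compl_iff, Set.mem_ofPred_eq, not_and_or] at hω
    rcases hω with h | h
    · left
      push Not at h
      obtain ⟨e, he, h⟩ := h
      exact Set.mem_iUnion.2 ⟨e, he, h⟩
    · right
      push Not at h
      obtain ⟨k, f, g, hf, hg, h⟩ := h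
      exact Set.mem_iUnion.2 ⟨k, Set.mem_iUnion.2 ⟨f, Set.mem_iUnion.2 ⟨g, hf, hg, h⟩⟩⟩
  have h1 : ∀ e : Fin m × Fin n, Measure.pi μ {ω | e ∈ E ∧ ω ∉ goodEnt s t e} ≤
      (2 ^ (t + 1 + m + n))⁻¹ := by
    intro e
    by_cases he : e ∈ E
    · have hm : MeasurableSet {ω | e ∈ E ∧ ω ∉ goodEnt (m := m) (n := n) s t e} := by
        have : {ω | e ∈ E ∧ ω ∉ goodEnt (m := m) (n := n) s t e} = (goodEnt s t e)ᶜ := by
          ext ω
          simp [he]
        rw [this]
        exact (measurable_goodEnt e).compl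
      refine slice μ e hm fun ω => ?_
      refine le_trans (measure_mono ?_) (hτ e he (t + 1 + m + n))
      intro x hx
      have hx2 := hx.2
      simp only [goodEnt, Set.mem_ofPred_eq, Function.update_self, not_le] at hx2
      exact hx2
    · have : {ω | e ∈ E ∧ ω ∉ goodEnt (m := m) (n := n) s t e} = ∅ := by
        ext ω
        simp [he]
      rw [this, measure_empty]
      exact zero_le
  have h2 : ∀ (k : Fin (m + 1)) (f : Fin k → Fin m) (g : Fin k → Fin n),
      Measure.pi μ {ω | Function.Injective f ∧ Function.Injective g ∧ ω ∉ goodMin E M s t f g} ≤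
        2 ^ m * (2 ^ (s + 1) * (2 ^ ex m n s t)⁻¹) := by
    intro k f g
    by_cases hfg : Function.Injective f ∧ Function.Injective g
    · rcases anti (E := E) (M := M) μ hμ k f g hfg.1 hfg.2 with h | h
      · have : {ω | Function.Injective f ∧ Function.Injective g ∧ ω ∉ goodMin E M s t f g} = ∅ := by
          ext ω
          simp only [goodMin, Set.mem_ofPred_eq, h ω, ne_eq, not_true_eq_false, false_implies,
            and_false, Set.mem_empty_iff_false]
        rw [this, measure_empty]
        exact zero_le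
      · have h3 := h (((2 : ℝ) ^ ex m n s t)⁻¹) (by positivity)
          (inv_le_one_of_one_le₀ (one_le_pow₀ (by norm_num)))
        refine (measure_mono ?_).trans (h3.trans ?_)
        · intro ω hω
          have := hω.2.2
          simp only [goodMin, Set.mem_ofPred_eq, Classical.not_imp, not_le] at this
          exact this.2
        · have h4 : ENNReal.ofReal ((2 : ℝ) ^ ex m n s t)⁻¹ = (2 ^ ex m n s t)⁻¹ := by
            rw [ENNReal.ofReal_inv_of_pos (by positivity), ENNReal.ofReal_pow (by norm_num)]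
            norm_num
          rw [h4]
          gcongr
          have h5 : (k : ℕ) ≤ 2 ^ m := (Nat.lt_succ_iff.1 k.2).trans Nat.lt_two_pow_self.le
          exact_mod_cast h5
    · have : {ω | Function.Injective f ∧ Function.Injective g ∧ ω ∉ goodMin E M s t f g} = ∅ := by
        ext ω
        simp only [Set.mem_ofPred_eq, Set.mem_empty_iff_false, iff_false]
        exact fun h => hfg ⟨h.1, h.2.1⟩
      rw [this, measure_empty]
      exact zero_le
  have h6 : ∀ k : Fin (m + 1), Measure.pi μ (⋃ (f : Fin k → Fin m) (g : Fin k → Fin n),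
      {ω | Function.Injective f ∧ Function.Injective g ∧ ω ∉ goodMin E M s t f g}) ≤
        2 ^ (m * m) * (2 ^ (n * m) * (2 ^ m * (2 ^ (s + 1) * (2 ^ ex m n s t)⁻¹))) := by
    intro k
    have hk : (k : ℕ) ≤ m := Nat.lt_succ_iff.1 k.2
    refine (measure_iUnion_fintype_le _ _).trans ?_
    refine (Finset.sum_le_card_nsmul _ _
      (2 ^ (n * m) * (2 ^ m * (2 ^ (s + 1) * (2 ^ ex m n s t)⁻¹))) ?_).trans ?_
    · intro f _
      refine (measure_iUnion_fintype_le _ _).trans ?_
      refine (Finset.sum_le_card_nsmul _ _ _ fun g _ => h2 k f g).trans ?_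
      rw [nsmul_eq_mul]
      gcongr
      rw [Finset.card_univ, Fintype.card_fun, Fintype.card_fin, Fintype.card_fin]
      have : n ^ (k : ℕ) ≤ 2 ^ (n * m) :=
        calc n ^ (k : ℕ) ≤ (2 ^ n) ^ (k : ℕ) := Nat.pow_le_pow_left Nat.lt_two_pow_self.le _
          _ ≤ (2 ^ n) ^ m := Nat.pow_le_pow_right (by positivity) hk
          _ = 2 ^ (n * m) := by rw [← pow_mul]
      exact_mod_cast this
    · rw [nsmul_eq_mul]
      gcongr
      rw [Finset.card_univ, Fintype.card_fun, Fintype.card_fin, Fintype.card_fin]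
      have : m ^ (k : ℕ) ≤ 2 ^ (m * m) :=
        calc m ^ (k : ℕ) ≤ (2 ^ m) ^ (k : ℕ) := Nat.pow_le_pow_left Nat.lt_two_pow_self.le _
          _ ≤ (2 ^ m) ^ m := Nat.pow_le_pow_right (by positivity) hk
          _ = 2 ^ (m * m) := by rw [← pow_mul]
      exact_mod_cast this
  have h7 : Measure.pi μ (⋃ e : Fin m × Fin n, {ω | e ∈ E ∧ ω ∉ goodEnt s t e}) ≤
      (2 ^ (t + 1))⁻¹ := by
    refine (measure_iUnion_fintype_le _ _).trans ?_
    refine (Finset.sum_le_card_nsmul _ _ _ fun e _ => h1 e).trans ?_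
    rw [nsmul_eq_mul, Finset.card_univ, Fintype.card_prod, Fintype.card_fin, Fintype.card_fin]
    have h8 : ((m * n : ℕ) : ENNReal) ≤ 2 ^ (m + n) := by
      have : m * n ≤ 2 ^ (m + n) := by
        rw [pow_add]
        exact Nat.mul_le_mul Nat.lt_two_pow_self.le Nat.lt_two_pow_self.le
      exact_mod_cast this
    calc ((m * n : ℕ) : ENNReal) * (2 ^ (t + 1 + m + n))⁻¹
        ≤ 2 ^ (m + n) * (2 ^ (t + 1 + m + n))⁻¹ := by gcongr
      _ = (2 ^ (t + 1))⁻¹ := by
        rw [show t + 1 + m + n = (t + 1) + (m + n) by ring]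
        exact two_cancel _ _
  have h9 : Measure.pi μ (⋃ (k : Fin (m + 1)) (f : Fin k → Fin m) (g : Fin k → Fin n),
      {ω | Function.Injective f ∧ Function.Injective g ∧ ω ∉ goodMin E M s t f g}) ≤
        (2 ^ (t + 1))⁻¹ := by
    refine (measure_iUnion_fintype_le _ _).trans ?_
    refine (Finset.sum_le_card_nsmul _ _ _ fun k _ => h6 k).trans ?_
    rw [nsmul_eq_mul, Finset.card_univ, Fintype.card_fin]
    have h8 : ((m + 1 : ℕ) : ENNReal) ≤ 2 ^ m := by
      have : m + 1 ≤ 2 ^ m := Nat.lt_two_pow_self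
      exact_mod_cast this
    calc ((m + 1 : ℕ) : ENNReal) *
          (2 ^ (m * m) * (2 ^ (n * m) * (2 ^ m * (2 ^ (s + 1) * (2 ^ ex m n s t)⁻¹))))
        ≤ 2 ^ m *
          (2 ^ (m * m) * (2 ^ (n * m) * (2 ^ m * (2 ^ (s + 1) * (2 ^ ex m n s t)⁻¹)))) := by
          gcongr
      _ = (2 ^ (t + 1))⁻¹ := by
        have h10 : ex m n s t = (t + 1) + (m + m * m + n * m + m + (s + 1)) := by
          unfold ex
          ring
        rw [h10, pow_add 2 (t + 1), ENNReal.mul_inv (Or.inl (by positivity))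
          (Or.inl (by finiteness))]
        rw [show (2 : ENNReal) ^ m *
          (2 ^ (m * m) * (2 ^ (n * m) * (2 ^ m * (2 ^ (s + 1) * ((2 ^ (t + 1))⁻¹ *
            (2 ^ (m + m * m + n * m + m + (s + 1)))⁻¹))))) =
            (2 ^ (t + 1))⁻¹ * (2 ^ (m + m * m + n * m + m + (s + 1)) *
              (2 ^ (m + m * m + n * m + m + (s + 1)))⁻¹) by
          rw [pow_add, pow_add, pow_add, pow_add]
          ring]
        rw [ENNReal.mul_inv_cancel (by positivity) (by finiteness), mul_one]
  calc Measure.pi μ (good E M s t)ᶜ ≤ _ := measure_mono hsub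
    _ ≤ _ := measure_union_le _ _
    _ ≤ (2 ^ (t + 1))⁻¹ + (2 ^ (t + 1))⁻¹ := add_le_add h7 h9
    _ = (2 ^ t)⁻¹ := by
      rw [← two_mul, pow_succ, ENNReal.mul_inv (Or.inl (by positivity)) (Or.inl (by finiteness)),
        mul_comm, mul_assoc, ENNReal.inv_mul_cancel (by positivity) (by finiteness), mul_one]

/-- Every `ω` is good for large `t`. -/
theorem exists_good (ω : Fin m × Fin n → ℝ) : ∃ t, ω ∈ good E M s t := by
  have h1 : ∀ x : ℝ, ∀ᶠ t : ℕ in Filter.atTop, x ≤ (2 : ℝ) ^ t := by
    intro x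
    exact (tendsto_pow_atTop_atTop_of_one_lt (by norm_num : (1 : ℝ) < 2)).eventually_ge_atTop x
  have h2 : ∀ᶠ t in Filter.atTop, ∀ e : Fin m × Fin n, ω ∈ goodEnt s t e := by
    rw [Filter.eventually_all]
    intro e
    filter_upwards [h1 |ω e|] with t ht
    exact ht.trans (pow_le_pow_right₀ (by norm_num) (by unfold en; omega))
  have h3 : ∀ᶠ t in Filter.atTop, ∀ (k : Fin (m + 1)) (f : Fin k → Fin m) (g : Fin k → Fin n),
      ω ∈ goodMin E M s t f g := by
    rw [Filter.eventually_all]
    intro k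
    rw [Filter.eventually_all]
    intro f
    rw [Filter.eventually_all]
    intro g
    filter_upwards [h1 (|mino E M f g ω|)⁻¹] with t ht hne
    rcases Nat.eq_zero_or_pos (k : ℕ) with hk | hk
    · have : |mino E M f g ω| = 1 := by
        obtain ⟨k, hk'⟩ := k
        simp only at hk
        subst hk
        simp [mino]
      rw [this, hk, pow_zero]
    · have hp : 0 < |mino E M f g ω| := abs_pos.2 hne
      calc (((2 : ℝ) ^ ex m n s t)⁻¹) ^ (k : ℕ) ≤ (((2 : ℝ) ^ ex m n s t)⁻¹) ^ 1 :=
            pow_le_pow_of_le_one (by positivity) (inv_le_one_of_one_le₀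
              (one_le_pow₀ (by norm_num))) hk
        _ ≤ ((2 : ℝ) ^ t)⁻¹ := by
            rw [pow_one]
            exact inv_anti₀ (by positivity) (pow_le_pow_right₀ (by norm_num)
              (by unfold ex; omega))
        _ ≤ _ := inv_le_of_inv_le₀ hp ht
  obtain ⟨t, ht1, ht2⟩ := (h2.and h3).exists
  exact ⟨t, fun e _ => ht1 e, fun k f g _ _ => ht2 k f g⟩

end Pool.Agent.X215.Smooth
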