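import Mathlib

set_option autoImplicit false

/-!
# Ratios of the entries of elementary vectors in terms of minors
-/

namespace Pool.Agent.X215.Smooth

open Matrix

/-- All nonzero minors of `X` lie between `2 ^ (-R)` and `2 ^ R` in absolute value. -/
def Mid (R : ℕ) {m n : ℕ} (X : Matrix (Fin m) (Fin n) ℝ) : Prop :=
  ∀ (k : ℕ) (f : Fin k → Fin m) (g : Fin k → Fin n), (X.submatrix f g).det ≠ 0 →
    ((2 : ℝ) ^ R)⁻¹ ≤ |(X.submatrix f g).det| ∧ |(X.submatrix f g).det| ≤ (2 : ℝ) ^ R

/-- A nonzero minor from linearly independent rows. -/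
theorem exists_minor {k n : ℕ} {M : Matrix (Fin k) (Fin n) ℝ}
    (h : LinearIndependent ℝ M.row) :
    ∃ g : Fin k → Fin n, (M.submatrix id g).det ≠ 0 := by
  classical
  have hrk : M.rank = k := by
    simpa using h.rank_matrix
  rw [Matrix.rank_eq_finrank_span_cols] at hrk
  have h1 := Submodule.exists_fun_fin_finrank_span_eq ℝ (Set.range M.col)
  rw [hrk] at h1
  obtain ⟨f, hf, hs, hli⟩ := h1
  choose g hg using fun i => hf i
  refine ⟨g, ?_⟩
  have h2 : (M.submatrix id g).col = f := by
    funext i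
    exact hg i
  have h3 : LinearIndependent ℝ (M.submatrix id g).col := by rw [h2]; exact hli
  rw [Matrix.linearIndependent_cols_iff_isUnit] at h3
  exact (Matrix.isUnit_iff_isUnit_det _).1 h3 |>.ne_zero

/-- Replacing one row by a combination of the rows. -/
theorem det_update_comb {k : ℕ} (M : Matrix (Fin k) (Fin k) ℝ) (a : Fin k) (c : Fin k → ℝ) :
    (M.updateRow a (∑ l, c l • M l)).det = c a * M.det := by
  exact Matrix.det_updateRow_sum M a c

/-- The ratios of the entries of elementary vectors of the left kernel. -/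
theorem ratio {R m n : ℕ} {X : Matrix (Fin m) (Fin n) ℝ} (hX : Mid R X) {C : Fin m → ℝ}
    (h1 : C ᵥ* X = 0)
    (h2 : ∀ D : Fin m → ℝ, D ᵥ* X = 0 → (∀ i, C i = 0 → D i = 0) → ∃ l : ℝ, D = l • C)
    {i j : Fin m} (hi : C i ≠ 0) (hj : C j ≠ 0) :
    ((2 : ℝ) ^ (2 * R))⁻¹ ≤ |C i / C j| ∧ |C i / C j| ≤ (2 : ℝ) ^ (2 * R) := by
  classical
  rcases eq_or_ne i j with rfl | hij
  · rw [div_self hi, abs_one]
    have := one_le_pow₀ (M₀ := ℝ) (n := 2 * R) (a := 2) (by norm_num)
    exact ⟨inv_le_one_of_one_le₀ this, this⟩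
  obtain ⟨T, hT⟩ : ∃ T : Finset (Fin m), ∀ l, l ∈ T ↔ C l ≠ 0 ∧ l ≠ j :=
    ⟨Finset.univ.filter fun l => C l ≠ 0 ∧ l ≠ j, fun l => by simp⟩
  obtain ⟨k, hk⟩ : ∃ k, T.card = k := ⟨_, rfl⟩
  set e : Fin k ≃ T := (T.equivFinOfCardEq hk).symm with he
  set f : Fin k → Fin m := fun a => (e a : Fin m) with hf
  have hfT : ∀ a, C (f a) ≠ 0 ∧ f a ≠ j := fun a => (hT _).1 (e a).2
  have hfi : Function.Injective f := fun a b h => e.injective (Subtype.ext h)
  have hsum : ∀ φ : Fin m → ℝ, (∀ l, l ∉ T → φ l = 0) → ∑ l, φ l = ∑ a, φ (f a) := by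
    intro φ hφ
    rw [← Finset.sum_subset (Finset.subset_univ T) (fun l _ hl => hφ l hl)]
    rw [← Finset.sum_coe_sort T]
    exact (Equiv.sum_comp e (fun l : T => φ l)).symm
  -- the rows are linearly independent
  have hli : LinearIndependent ℝ (X.submatrix f id).row := by
    rw [Fintype.linearIndependent_iff]
    intro d hd
    set D : Fin m → ℝ := fun l => if h : l ∈ T then d (e.symm ⟨l, h⟩) else 0 with hD
    have hDf : ∀ a, D (f a) = d a := by
      intro a
      have h : f a ∈ T := (e a).2
      rw [hD]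
      simp only [h, dif_pos]
      congr 1
      rw [Equiv.symm_apply_eq]
    have hD0 : ∀ l, l ∉ T → D l = 0 := by
      intro l hl
      rw [hD]
      simp only [hl, dif_neg, not_false_eq_true]
    obtain ⟨l, hl⟩ := h2 D (by
      funext b
      rw [Matrix.vecMul, dotProduct, Pi.zero_apply,
        hsum _ (fun l hl => by rw [hD0 l hl, zero_mul])]
      have := congrFun hd b
      simp only [Finset.sum_apply, Pi.smul_apply, Matrix.row, Matrix.submatrix_apply, id,
        smul_eq_mul, Pi.zero_apply] at this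
      rw [← this]
      exact Finset.sum_congr rfl fun a _ => by rw [hDf]) (by
      intro l hl
      apply hD0
      rw [hT]
      exact fun h => h.1 hl)
    have hDj : D j = 0 := by
      apply hD0
      rw [hT]
      exact fun h => h.2 rfl
    have hl0 : l = 0 := by
      have := congrFun hl j
      rw [hDj, Pi.smul_apply, smul_eq_mul] at this
      rcases mul_eq_zero.1 this.symm with h | h
      · exact h
      · exact absurd h hj
    intro a
    rw [← hDf a, hl, hl0, zero_smul, Pi.zero_apply]
  obtain ⟨g, hg⟩ := exists_minor hli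
  have hg' : (X.submatrix f g).det ≠ 0 := hg
  have hiT : i ∈ T := (hT i).2 ⟨hi, hij⟩
  set a : Fin k := e.symm ⟨i, hiT⟩ with ha
  have hfa : f a = i := by
    rw [hf, ha]
    simp
  -- the other minor
  have hrow : (X.submatrix f g).updateRow a (∑ l, (-(C (f l)) / C j) • (X.submatrix f g) l) =
      X.submatrix (Function.update f a j) g := by
    ext p q
    rcases eq_or_ne p a with rfl | hp
    · rw [Matrix.updateRow_self, Finset.sum_apply, Matrix.submatrix_apply, Function.update_self]
      have h3 := congrFun h1 (g q)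
      rw [Matrix.vecMul, dotProduct, Pi.zero_apply] at h3
      rw [← Finset.sum_erase_add _ _ (Finset.mem_univ j)] at h3
      have h4 : ∑ x ∈ Finset.univ.erase j, C x * X x (g q) = ∑ a, C (f a) * X (f a) (g q) := by
        refine Eq.trans ?_ ((hsum (fun l => if l = j then 0 else C l * X l (g q)) ?_).trans ?_)
        · rw [← Finset.sum_erase_add _ _ (Finset.mem_univ j), if_pos rfl, add_zero]
          exact Finset.sum_congr rfl fun x hx => by
            rw [if_neg (Finset.ne_of_mem_erase hx)]
        · intro l hl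
          rw [hT] at hl
          split_ifs with h
          · rfl
          · have : C l = 0 := by
              by_contra h'
              exact hl ⟨h', h⟩
            rw [this, zero_mul]
        · exact Finset.sum_congr rfl fun a _ => if_neg (hfT a).2
      rw [h4] at h3
      have h6 : X j (g q) = ∑ a, (-(C (f a)) / C j) * X (f a) (g q) := by
        have : ∑ a, (-(C (f a)) / C j) * X (f a) (g q) =
            -(∑ a, C (f a) * X (f a) (g q)) / C j := by
          rw [← Finset.sum_neg_distrib, Finset.sum_div]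
          exact Finset.sum_congr rfl fun a _ => by ring
        rw [this, eq_div_iff hj]
        linarith
      rw [h6]
      rfl
    · rw [Matrix.updateRow_ne hp, Matrix.submatrix_apply, Matrix.submatrix_apply,
        Function.update_of_ne hp]
  have hdet := det_update_comb (X.submatrix f g) a (fun l => -(C (f l)) / C j)
  rw [hrow, hfa] at hdet
  have hne : (X.submatrix (Function.update f a j) g).det ≠ 0 := by
    rw [hdet]
    exact mul_ne_zero (div_ne_zero (neg_ne_zero.2 hi) hj) hg'
  have hA := hX _ _ _ hg'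
  have hB := hX _ _ _ hne
  have habs : |C i / C j| = |(X.submatrix (Function.update f a j) g).det| /
      |(X.submatrix f g).det| := by
    rw [hdet, abs_mul, mul_div_assoc, div_self (abs_ne_zero.2 hg'), mul_one, neg_div, abs_neg]
  have hp : (0 : ℝ) < |(X.submatrix f g).det| := abs_pos.2 hg'
  have h2R : (0 : ℝ) < 2 ^ R := by positivity
  rw [habs]
  constructor
  · rw [le_div_iff₀ hp, pow_mul', sq, mul_inv]
    calc ((2 : ℝ) ^ R)⁻¹ * (2 ^ R)⁻¹ * |(X.submatrix f g).det|
        ≤ ((2 : ℝ) ^ R)⁻¹ * (2 ^ R)⁻¹ * 2 ^ R := by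
          exact mul_le_mul_of_nonneg_left hA.2 (by positivity)
      _ = ((2 : ℝ) ^ R)⁻¹ := by
          rw [mul_assoc, inv_mul_cancel₀ h2R.ne', mul_one]
      _ ≤ _ := hB.1
  · rw [div_le_iff₀ hp, pow_mul', sq]
    calc |(X.submatrix (Function.update f a j) g).det| ≤ 2 ^ R := hB.2
      _ = (2 : ℝ) ^ R * 2 ^ R * (2 ^ R)⁻¹ := by
          rw [mul_assoc, mul_inv_cancel₀ h2R.ne', mul_one]
      _ ≤ _ := mul_le_mul_of_nonneg_left hA.1 (by positivity)

end Pool.Agent.X215.Smooth
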