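import Pool.Agent.X215.Smooth.Time
import Pool.Agent.Y648.CX.All

set_option autoImplicit false

/-!
# Scales of the elementary vectors: scaled matrices, one more row, one more column
-/

namespace Pool.Agent.X215.Smooth

open Matrix
open Pool.Agent.Y648.CS.V (Ele FewE NearE Hyp lker)

theorem mem_lker {m n : ℕ} {A : Matrix (Fin m) (Fin n) ℝ} {C : Fin m → ℝ} :
    C ∈ lker A ↔ C ᵥ* A = 0 := by
  unfold lker
  rw [LinearMap.mem_ker, Matrix.vecMulLinear_apply]

/-- The ratios of the entries of elementary vectors are `σ j / σ i`, up to `2 ^ (2 * R)`. -/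
def Bd (R : ℕ) {m : ℕ} (V : Submodule ℝ (Fin m → ℝ)) : Prop :=
  ∃ σ : Fin m → ℝ, (∀ i, σ i ≠ 0) ∧ ∀ C, Ele V C → ∀ i j, C i ≠ 0 → C j ≠ 0 →
    ((2 : ℝ) ^ (2 * R))⁻¹ * |σ j / σ i| ≤ |C i / C j| ∧ |C i / C j| ≤ 2 ^ (2 * R) * |σ j / σ i|

theorem few_of {R m r : ℕ} {V : Submodule ℝ (Fin m → ℝ)} (h : Bd R V) (hr : 4 * R + 1 ≤ r) :
    FewE r V := by
  obtain ⟨σ, hσ, h⟩ := h
  refine ⟨fun i j => {((2 : ℝ) ^ (2 * R))⁻¹ * |σ j / σ i|}, fun i j => ⟨?_, ?_⟩, ?_⟩
  · rw [Finset.card_singleton]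
    omega
  · intro s hs
    rw [Finset.mem_singleton] at hs
    rw [hs]
    have : 0 < |σ j / σ i| := abs_pos.2 (div_ne_zero (hσ j) (hσ i))
    positivity
  · intro C hC i j hi hj
    obtain ⟨h1, h2⟩ := h C hC i j hi hj
    refine ⟨_, Finset.mem_singleton_self _, h1, h2.trans ?_⟩
    have h3 : (2 : ℝ) ^ (2 * R) ≤ 2 ^ r * ((2 : ℝ) ^ (2 * R))⁻¹ := by
      rw [le_mul_inv_iff₀ (by positivity), ← pow_add]
      exact pow_le_pow_right₀ (by norm_num) (by omega)
    calc (2 : ℝ) ^ (2 * R) * |σ j / σ i| ≤ 2 ^ r * ((2 : ℝ) ^ (2 * R))⁻¹ * |σ j / σ i| :=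
          mul_le_mul_of_nonneg_right h3 (abs_nonneg _)
      _ = _ := by ring

/-- The left kernel of a scaled matrix. -/
theorem bd_scaled {R m n : ℕ} {X : Matrix (Fin m) (Fin n) ℝ} (hX : Mid R X) {ρ : Fin m → ℝ}
    {γ : Fin n → ℝ} (hρ : ∀ i, ρ i ≠ 0) (hγ : ∀ j, γ j ≠ 0) {A : Matrix (Fin m) (Fin n) ℝ}
    (hA : ∀ i j, A i j = ρ i * X i j * γ j) : Bd R (lker A) := by
  have key : ∀ C : Fin m → ℝ, C ∈ lker A ↔ (fun i => ρ i * C i) ᵥ* X = 0 := by
    intro C
    rw [mem_lker, funext_iff, funext_iff]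
    refine forall_congr' fun j => ?_
    have : (C ᵥ* A) j = ((fun i => ρ i * C i) ᵥ* X) j * γ j := by
      simp only [Matrix.vecMul, dotProduct, Finset.sum_mul]
      exact Finset.sum_congr rfl fun i _ => by rw [hA]; ring
    rw [this, Pi.zero_apply, mul_eq_zero]
    simp [hγ j]
  refine ⟨ρ, hρ, fun C hC i j hi hj => ?_⟩
  have h1 := (key C).1 hC.1
  have h2 := ratio hX h1 (fun D hD hs => by
    obtain ⟨l, hl⟩ := hC.2.2 (fun i => (ρ i)⁻¹ * D i) (by
      rw [key]
      have : (fun i => ρ i * ((ρ i)⁻¹ * D i)) = D := by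
        funext i
        rw [← mul_assoc, mul_inv_cancel₀ (hρ i), one_mul]
      rw [this]
      exact hD) (by
      intro i hi
      have := hs i (by rw [hi, mul_zero])
      rw [this, mul_zero])
    refine ⟨l, ?_⟩
    funext i
    have := congrFun hl i
    rw [Pi.smul_apply, smul_eq_mul] at this
    rw [Pi.smul_apply, smul_eq_mul]
    calc D i = ρ i * ((ρ i)⁻¹ * D i) := by
          rw [← mul_assoc, mul_inv_cancel₀ (hρ i), one_mul]
      _ = l * (ρ i * C i) := by rw [this]; ring) (i := i) (j := j)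
    (mul_ne_zero (hρ i) hi) (mul_ne_zero (hρ j) hj)
  have h3 : |C i / C j| = |ρ i * C i / (ρ j * C j)| * |ρ j / ρ i| := by
    rw [← abs_mul]
    congr 1
    have := hρ i
    have := hρ j
    field_simp
  rw [h3]
  exact ⟨mul_le_mul_of_nonneg_right h2.1 (abs_nonneg _),
    mul_le_mul_of_nonneg_right h2.2 (abs_nonneg _)⟩

/-- A hyperplane section. -/
theorem finrank_inf {m : ℕ} (W U : Submodule ℝ (Fin m → ℝ)) (φ : (Fin m → ℝ) →ₗ[ℝ] ℝ)
    (h : ∀ x ∈ W, φ x = 0 → x ∈ U) : Module.finrank ℝ W ≤ Module.finrank ℝ U + 1 := by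
  have h1 := LinearMap.finrank_range_add_finrank_ker (φ.domRestrict W)
  have h2 : Module.finrank ℝ (LinearMap.range (φ.domRestrict W)) ≤ 1 := by
    have := Submodule.finrank_le (LinearMap.range (φ.domRestrict W))
    simpa using this
  have h3 : Module.finrank ℝ (LinearMap.ker (φ.domRestrict W)) ≤ Module.finrank ℝ U := by
    rw [← Submodule.finrank_map_subtype_eq]
    refine Submodule.finrank_mono ?_
    rintro x ⟨y, hy, rfl⟩
    exact h _ y.2 (by simpa using hy)
  omega

/-- The matrix itself. -/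
theorem near_self {R m n r : ℕ} {A : Matrix (Fin m) (Fin n) ℝ} (h : Bd R (lker A))
    (hr : 4 * R + 1 ≤ r) : NearE r A :=
  ⟨lker A, Or.inl ⟨le_rfl, Nat.le_succ _⟩, few_of h hr⟩

/-- One more column. -/
theorem near_col {R m n r : ℕ} {B : Matrix (Fin m) (Fin n) ℝ} (h : Bd R (lker B))
    (hr : 4 * R + 1 ≤ r) {A : Matrix (Fin m) (Fin (n + 1)) ℝ} (q : Fin (n + 1))
    (hA : ∀ i j, A i (q.succAbove j) = B i j) : NearE r A := by
  refine ⟨lker B, Or.inr ⟨?_, ?_⟩, few_of h hr⟩
  · intro C hC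
    rw [mem_lker] at hC ⊢
    funext j
    have := congrFun hC (q.succAbove j)
    simp only [Matrix.vecMul, dotProduct, hA] at this ⊢
    exact this
  · refine finrank_inf _ _ ((LinearMap.proj q).comp A.vecMulLinear) fun C hC h0 => ?_
    rw [mem_lker] at hC ⊢
    funext j
    rcases Fin.eq_self_or_eq_succAbove q j with rfl | ⟨j', rfl⟩
    · simpa using h0
    · have := congrFun hC j'
      simp only [Matrix.vecMul, dotProduct, hA] at this ⊢
      exact this

/-- One more row. -/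
theorem near_row {R m n r : ℕ} {B : Matrix (Fin m) (Fin n) ℝ} (h : Bd R (lker B))
    (hr : 4 * R + 1 ≤ r) {A : Matrix (Fin (m + 1)) (Fin n) ℝ} (p : Fin (m + 1))
    (hA : ∀ i j, A (p.succAbove i) j = B i j) : NearE r A := by
  classical
  have hsum : ∀ (D : Fin (m + 1) → ℝ) (j : Fin n), (D ᵥ* A) j =
      D p * A p j + ((fun i => D (p.succAbove i)) ᵥ* B) j := by
    intro D j
    simp only [Matrix.vecMul, dotProduct]
    rw [Fin.sum_univ_succAbove _ p]
    simp only [hA]
  obtain ⟨V, hV⟩ : ∃ V : Submodule ℝ (Fin (m + 1) → ℝ), ∀ D, D ∈ V ↔ D p = 0 ∧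
      (fun i => D (p.succAbove i)) ∈ lker B :=
    ⟨LinearMap.ker (LinearMap.proj (R := ℝ) (φ := fun _ : Fin (m + 1) => ℝ) p) ⊓
      (lker B).comap (LinearMap.funLeft ℝ ℝ p.succAbove), fun D => by
        simp only [Submodule.mem_inf, LinearMap.mem_ker, LinearMap.proj_apply,
          Submodule.mem_comap]
        rfl⟩
  refine ⟨V, Or.inl ⟨?_, ?_⟩, few_of (R := R) ?_ hr⟩
  · intro D hD
    rw [hV] at hD
    rw [mem_lker]
    funext j
    rw [hsum, hD.1, zero_mul, zero_add, mem_lker.1 hD.2]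
  · refine finrank_inf _ _ (LinearMap.proj p) fun D hD h0 => ?_
    rw [hV]
    refine ⟨h0, ?_⟩
    rw [mem_lker] at hD ⊢
    funext j
    have := congrFun hD j
    rw [hsum, show D p = 0 from h0, zero_mul, zero_add] at this
    exact this
  · obtain ⟨σ, hσ, hB⟩ := h
    refine ⟨p.insertNth 1 σ, ?_, ?_⟩
    · intro i
      rcases Fin.eq_self_or_eq_succAbove p i with rfl | ⟨i', rfl⟩
      · rw [Fin.insertNth_apply_same]
        exact one_ne_zero
      · rw [Fin.insertNth_apply_succAbove]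
        exact hσ i'
    · intro D hD i j hi hj
      obtain ⟨hD1, hD2, hD3⟩ := hD
      rw [hV] at hD1
      have hip : i ≠ p := fun h => hi (h ▸ hD1.1)
      have hjp : j ≠ p := fun h => hj (h ▸ hD1.1)
      obtain ⟨i', rfl⟩ := Fin.exists_succAbove_eq hip
      obtain ⟨j', rfl⟩ := Fin.exists_succAbove_eq hjp
      rw [Fin.insertNth_apply_succAbove, Fin.insertNth_apply_succAbove]
      refine hB (fun i => D (p.succAbove i)) ⟨hD1.2, ?_, ?_⟩ i' j' hi hj
      · intro h0
        exact hi (congrFun h0 i')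
      · intro F hF hs
        obtain ⟨l, hl⟩ := hD3 (p.insertNth 0 F) (by
          rw [hV]
          refine ⟨Fin.insertNth_apply_same _ _ _, ?_⟩
          have : (fun i => (p.insertNth (0 : ℝ) F : Fin (m + 1) → ℝ) (p.succAbove i)) = F := by
            funext i
            rw [Fin.insertNth_apply_succAbove]
          rw [this]
          exact hF) (by
          intro i h0
          rcases Fin.eq_self_or_eq_succAbove p i with rfl | ⟨i', rfl⟩
          · rw [Fin.insertNth_apply_same]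
          · rw [Fin.insertNth_apply_succAbove]
            exact hs i' h0)
        refine ⟨l, ?_⟩
        funext i
        have := congrFun hl (p.succAbove i)
        rw [Fin.insertNth_apply_succAbove] at this
        exact this

end Pool.Agent.X215.Smooth
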