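import Pool.Agent.X215.Smooth.Good

set_option autoImplicit false

/-!
# The first good level
-/

namespace Pool.Agent.X215.Smooth

open MeasureTheory Matrix

theorem pmono (p : Polynomial ℕ) {a b : ℕ} (h : a ≤ b) : p.eval a ≤ p.eval b := by
  rw [Polynomial.eval_eq_sum, Polynomial.eval_eq_sum]
  exact Finset.sum_le_sum fun i _ => Nat.mul_le_mul le_rfl (Nat.pow_le_pow_left h _)

theorem pmul (p : Polynomial ℕ) (a : ℕ) {b : ℕ} (h : 1 ≤ b) :
    p.eval (a * b) ≤ p.eval a * b ^ p.natDegree := by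
  rw [Polynomial.eval_eq_sum_range, Polynomial.eval_eq_sum_range, Finset.sum_mul]
  refine Finset.sum_le_sum fun i hi => ?_
  rw [mul_pow, ← mul_assoc]
  exact Nat.mul_le_mul le_rfl (Nat.pow_le_pow_right h (by
    have := Finset.mem_range.1 hi
    omega))

/-- A sum. -/
theorem exists_sum (d : ℕ) : ∃ K : ℕ, ∑' t : ℕ, (((t + 1) ^ d : ℕ) : ENNReal) * (2 * (2 ^ t)⁻¹) ≤ K := by
  have h1 : Summable (fun t : ℕ => 4 * (((t + 1 : ℕ) : ℝ) ^ d * (1 / 2 : ℝ) ^ (t + 1))) := by
    refine Summable.mul_left 4 ?_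
    exact (summable_nat_add_iff (f := fun t : ℕ => ((t : ℝ) ^ d * (1 / 2 : ℝ) ^ t)) 1).2
      (summable_pow_mul_geometric_of_norm_lt_one d (by norm_num))
  have h2 : ∀ t : ℕ, (((t + 1) ^ d : ℕ) : ENNReal) * (2 * (2 ^ t)⁻¹) =
      ENNReal.ofReal (4 * (((t + 1 : ℕ) : ℝ) ^ d * (1 / 2 : ℝ) ^ (t + 1))) := by
    intro t
    have h3 : 4 * (((t + 1 : ℕ) : ℝ) ^ d * (1 / 2 : ℝ) ^ (t + 1)) =
        (((t + 1) ^ d : ℕ) : ℝ) * (2 * ((2 : ℝ) ^ t)⁻¹) := by
      push_cast
      rw [pow_succ, one_div, inv_pow]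
      ring
    rw [h3, ENNReal.ofReal_mul (by positivity), ENNReal.ofReal_mul (by positivity),
      ENNReal.ofReal_inv_of_pos (by positivity), ENNReal.ofReal_pow (by norm_num),
      ENNReal.ofReal_natCast]
    norm_num
  have h4 := h1.tsum_ofReal_ne_top
  rw [← tsum_congr h2] at h4
  obtain ⟨K, hK⟩ := ENNReal.exists_nat_gt h4
  exact ⟨K, hK.le⟩

variable {m n : ℕ} {E : Set (Fin m × Fin n)} {M : Matrix (Fin m) (Fin n) ℤ} {s : ℕ}

/-- **The random level.** -/
theorem level (P1 : Polynomial ℕ) : ∃ Q : Polynomial ℕ, ∀ (m n s : ℕ) (E : Set (Fin m × Fin n))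
    (M : Matrix (Fin m) (Fin n) ℤ) (μ : Fin m × Fin n → Measure ℝ),
    (∀ i, IsProbabilityMeasure (μ i)) →
    (∀ e ∈ E, ∀ B, MeasurableSet B → μ e B ≤ 2 ^ s * volume B) →
    (∀ e ∈ E, ∀ t : ℕ, μ e {x | (2 : ℝ) ^ (s + t) < |x|} ≤ (2 ^ t)⁻¹) →
    ∃ τ : (Fin m × Fin n → ℝ) → ℕ, Measurable τ ∧ (∀ ω, ω ∈ good E M s (τ ω)) ∧
      (∀ t, Measure.pi μ {ω | t < τ ω} ≤ (2 ^ t)⁻¹) ∧
      ∫⁻ ω, (P1.eval (m + n + s + τ ω) : ℕ) ∂(Measure.pi μ) ≤ (Q.eval (m + n + s) : ℕ) := by
  classical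
  obtain ⟨K, hK⟩ := exists_sum P1.natDegree
  refine ⟨P1.comp (Polynomial.X + 1) * Polynomial.C K, fun m n s E M μ hp hμ hτ => ?_⟩
  have hex : ∀ ω, ∃ t, ω ∈ good E M s t := fun ω => exists_good ω
  have hms : ∀ t, MeasurableSet (good E M s t) := fun t => measurable_good
  refine ⟨fun ω => Nat.find (hex ω), measurable_find hex hms, fun ω => Nat.find_spec (hex ω),
    ?_, ?_⟩
  · intro t
    refine (measure_mono ?_).trans (prob_good (t := t) (M := M) μ hμ hτ)
    intro ω hω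
    exact Nat.find_min (hex ω) hω
  · set τ : (Fin m × Fin n → ℝ) → ℕ := fun ω => Nat.find (hex ω) with hτ'
    have hτm : Measurable τ := measurable_find hex hms
    have h1 : ∀ ω, ((P1.eval (m + n + s + τ ω) : ℕ) : ENNReal) ≤ ∑' t : ℕ,
        {ω | t ≤ τ ω}.indicator (fun _ => ((P1.eval (m + n + s + t) : ℕ) : ENNReal)) ω := by
      intro ω
      refine le_trans (le_of_eq ?_) (ENNReal.le_tsum (τ ω))
      rw [Set.indicator_of_mem]
      exact le_rfl (a := τ ω)
    have h2 : ∀ t, Measure.pi μ {ω | t ≤ τ ω} ≤ 2 * (2 ^ t)⁻¹ := by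
      intro t
      rcases t with _ | t
      · refine le_trans prob_le_one ?_
        rw [pow_zero, inv_one, mul_one]
        norm_num
      · have h3 : Measure.pi μ {ω | t + 1 ≤ τ ω} ≤ (2 ^ t)⁻¹ := by
          refine (measure_mono ?_).trans (prob_good (t := t) (M := M) μ hμ hτ)
          intro ω hω
          exact Nat.find_min (hex ω) hω
        refine h3.trans (le_of_eq ?_)
        have := two_cancel 1 t
        rw [pow_one] at this
        exact this.symm
    calc ∫⁻ ω, (P1.eval (m + n + s + τ ω) : ℕ) ∂(Measure.pi μ)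
        ≤ ∫⁻ ω, ∑' t : ℕ, {ω | t ≤ τ ω}.indicator
            (fun _ => ((P1.eval (m + n + s + t) : ℕ) : ENNReal)) ω ∂(Measure.pi μ) :=
          lintegral_mono h1
      _ = ∑' t : ℕ, ((P1.eval (m + n + s + t) : ℕ) : ENNReal) * Measure.pi μ {ω | t ≤ τ ω} := by
          rw [lintegral_tsum]
          · refine tsum_congr fun t => ?_
            rw [lintegral_indicator (measurableSet_le measurable_const hτm), lintegral_const,
              Measure.restrict_apply MeasurableSet.univ, Set.univ_inter]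
          · intro t
            exact (measurable_const.indicator
              (measurableSet_le measurable_const hτm)).aemeasurable
      _ ≤ ∑' t : ℕ, ((P1.eval (m + n + s + 1) : ℕ) : ENNReal) *
            ((((t + 1) ^ P1.natDegree : ℕ) : ENNReal) * (2 * (2 ^ t)⁻¹)) := by
          refine ENNReal.tsum_le_tsum fun t => ?_
          rw [← mul_assoc]
          refine mul_le_mul' ?_ (h2 t)
          have h4 : P1.eval (m + n + s + t) ≤ P1.eval (m + n + s + 1) *
              (t + 1) ^ P1.natDegree :=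
            (pmono P1 (by nlinarith)).trans (pmul P1 (m + n + s + 1) (b := t + 1) (by omega))
          exact_mod_cast h4
      _ = ((P1.eval (m + n + s + 1) : ℕ) : ENNReal) *
            ∑' t : ℕ, ((((t + 1) ^ P1.natDegree : ℕ) : ENNReal) * (2 * (2 ^ t)⁻¹)) :=
          ENNReal.tsum_mul_left
      _ ≤ ((P1.eval (m + n + s + 1) : ℕ) : ENNReal) * K := by gcongr
      _ = _ := by
          rw [Polynomial.eval_mul, Polynomial.eval_comp, Polynomial.eval_add, Polynomial.eval_X,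
            Polynomial.eval_one, Polynomial.eval_C, Nat.cast_mul]

end Pool.Agent.X215.Smooth
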